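import Pool.Agent.Helper77.SD.St

/-! # Project SD, module PER: continuous periodic functions -/

set_option autoImplicit false

namespace Pool.Agent.Helper7.SD

open Pool.Agent.Helper77.SD

private theorem PER_red {d : ℕ} (x : E d) : ∃ (k : Fin d → ℤ) (y : E d), x = y + zv k ∧ ‖y‖ ≤ (d : ℝ) := by
  refine ⟨fun i => ⌊x i⌋, x - zv (fun i => ⌊x i⌋), (sub_add_cancel _ _).symm, ?_⟩
  have h1 : ‖x - zv (fun i => ⌊x i⌋)‖ ^ 2 ≤ (d : ℝ) := by
    rw [EuclideanSpace.real_norm_sq_eq]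
    calc ∑ i, ((x - zv (fun i => ⌊x i⌋)) i) ^ 2 ≤ ∑ _i : Fin d, (1 : ℝ) := by
          refine Finset.sum_le_sum (fun i _ => ?_)
          have e : (x - zv (fun i => ⌊x i⌋)) i = x i - (⌊x i⌋ : ℝ) := rfl
          rw [e]
          have h1 := Int.floor_le (x i)
          have h2 := Int.lt_floor_add_one (x i)
          nlinarith only [h1, h2]
      _ = (d : ℝ) := by simp
  have h2 : (d : ℝ) ≤ (d : ℝ) ^ 2 := by
    have : d ≤ d ^ 2 := Nat.le_self_pow (by norm_num) d
    exact_mod_cast this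
  exact le_of_sq_le_sq (h1.trans h2) (Nat.cast_nonneg d)

private theorem PER_bdd {d : ℕ} {F : Type} [NormedAddCommGroup F] (f : E d → F) (hf : Continuous f)
    (hp : ZPer f) : ∃ Q : ℝ, ∀ x, ‖f x‖ ≤ Q := by
  obtain ⟨Q, hQ⟩ := (isCompact_closedBall (0 : E d) (d : ℝ)).exists_bound_of_continuousOn hf.continuousOn
  refine ⟨Q, fun x => ?_⟩
  obtain ⟨k, y, rfl, hy⟩ := PER_red x
  rw [hp k y]
  exact hQ y (by simpa using hy)

private theorem PER_min {d : ℕ} {F : Type} [NormedAddCommGroup F] (f : E d → F) (hf : Continuous f)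
    (hp : ZPer f) : ∃ x₀, ∀ x, ‖f x₀‖ ≤ ‖f x‖ := by
  obtain ⟨x₀, -, h0⟩ := (isCompact_closedBall (0 : E d) (d : ℝ)).exists_isMinOn
    ⟨0, by simp⟩ (f := fun x => ‖f x‖) hf.norm.continuousOn
  refine ⟨x₀, fun x => ?_⟩
  obtain ⟨k, y, rfl, hy⟩ := PER_red x
  rw [hp k y]
  exact h0 (by simpa using hy)

private theorem PER_uc {d : ℕ} {F : Type} [NormedAddCommGroup F] (f : E d → F) (hf : Continuous f)
    (hp : ZPer f) : UniformContinuous f := by
  have h1 := (isCompact_closedBall (0 : E d) ((d : ℝ) + 2)).uniformContinuousOn_of_continuous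
    (f := f) hf.continuousOn
  rw [Metric.uniformContinuousOn_iff] at h1
  rw [Metric.uniformContinuous_iff]
  intro ε hε
  obtain ⟨δ, hδ, h2⟩ := h1 ε hε
  refine ⟨min δ 1, lt_min hδ one_pos, ?_⟩
  intro a b hab
  obtain ⟨k, y, rfl, hy⟩ := PER_red a
  have e1 : dist (y + zv k) b = dist y (b - zv k) := by
    rw [dist_eq_norm, dist_eq_norm]
    congr 1
    abel
  rw [e1] at hab
  have e2 : f b = f (b - zv k) := by
    have := hp k (b - zv k)
    rwa [sub_add_cancel] at this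
  rw [hp k y, e2]
  have h3 : dist y (b - zv k) < 1 := lt_of_lt_of_le hab (min_le_right _ _)
  refine h2 y ?_ _ ?_ (lt_of_lt_of_le hab (min_le_left _ _))
  · rw [mem_closedBall_zero_iff]
    linarith only [hy]
  · rw [mem_closedBall_zero_iff]
    have : ‖b - zv k‖ ≤ ‖y‖ + dist y (b - zv k) := by
      rw [dist_eq_norm]
      calc ‖b - zv k‖ = ‖y - (y - (b - zv k))‖ := by congr 1; abel
        _ ≤ ‖y‖ + ‖y - (b - zv k)‖ := norm_sub_le _ _
    linarith only [hy, this, h3]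

theorem hPER : StPER := by
  intro d F _ _ f hf hp
  exact ⟨PER_bdd f hf hp, PER_uc f hf hp, PER_min f hf hp⟩

end Pool.Agent.Helper7.SD
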